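import Mathlib

namespace Pool.Agent.H567R3.OF

open SimpleGraph

variable {V ι : Type}

/-- `v` has degree `1` or `4` in `F`. -/
def Good (F : SimpleGraph V) (v : V) : Prop :=
  (F.neighborSet v).ncard = 1 ∨ (F.neighborSet v).ncard = 4

/-- Vertices of the big graph: connecting vertices `z i`, gadget roots `w (i, j)`,
and copies of `V` (two for each root). -/
abbrev W (ι V : Type) := ι ⊕ ((ι × Fin 3) ⊕ (ι × Fin 3 × Fin 2 × V))

/-- connecting vertex -/
abbrev zz (i : ι) : W ι V := Sum.inl i
/-- gadget root -/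
abbrev ww (p : ι × Fin 3) : W ι V := Sum.inr (Sum.inl p)
/-- copy of a vertex -/
abbrev cc (p : ι × Fin 3) (t : Fin 2) (v : V) : W ι V := Sum.inr (Sum.inr (p.1, p.2, t, v))

/-- adjacency of the big graph -/
def HAdj (C : SimpleGraph ι) (G : SimpleGraph V) (a b : V) : W ι V → W ι V → Prop
  | .inl i, .inl i' => C.Adj i i'
  | .inl i, .inr (.inl p) => i = p.1
  | .inr (.inl p), .inl i => i = p.1
  | .inr (.inl p), .inr (.inr q) => p.1 = q.1 ∧ p.2 = q.2.1 ∧ (q.2.2.2 = a ∨ q.2.2.2 = b)
  | .inr (.inr q), .inr (.inl p) => p.1 = q.1 ∧ p.2 = q.2.1 ∧ (q.2.2.2 = a ∨ q.2.2.2 = b)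
  | .inr (.inr q), .inr (.inr q') => q.1 = q'.1 ∧ q.2.1 = q'.2.1 ∧ q.2.2.1 = q'.2.2.1 ∧
      G.Adj q.2.2.2 q'.2.2.2 ∧ ¬ (q.2.2.2 = a ∧ q'.2.2.2 = b) ∧ ¬ (q.2.2.2 = b ∧ q'.2.2.2 = a)
  | .inl _, .inr (.inr _) => False
  | .inr (.inr _), .inl _ => False
  | .inr (.inl _), .inr (.inl _) => False

/-- the big graph -/
def HG (C : SimpleGraph ι) (G : SimpleGraph V) (a b : V) : SimpleGraph (W ι V) where
  Adj := HAdj C G a b
  symm := ⟨by
    rintro (i | p | q) (i' | p' | q') h
    · exact C.symm.symm _ _ h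
    · exact h
    · exact h
    · exact h
    · exact h
    · exact h
    · exact h
    · exact h
    · obtain ⟨h1, h2, h3, h4, h5, h6⟩ := h
      exact ⟨h1.symm, h2.symm, h3.symm, h4.symm, fun h => h6 ⟨h.2, h.1⟩, fun h => h5 ⟨h.2, h.1⟩⟩⟩
  loopless := ⟨by
    rintro (i | p | q) h
    · exact C.loopless.irrefl _ h
    · exact h
    · exact G.loopless.irrefl _ h.2.2.2.1⟩

variable {C : SimpleGraph ι} {G : SimpleGraph V} {a b : V}

lemma cc_inj {p : ι × Fin 3} {t : Fin 2} : Function.Injective (fun v : V => cc p t v) := by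
  intro u v h
  simpa using h

/-- degree of the connecting vertices -/
lemma ncard_zz [Finite ι] (hC : ∀ i, (C.neighborSet i).ncard = 2) (i : ι) :
    ((HG C G a b).neighborSet (zz i)).ncard = 5 := by
  have h : (HG C G a b).neighborSet (zz i) =
      (fun i' => (zz i' : W ι V)) '' (C.neighborSet i) ∪
        (fun j : Fin 3 => (ww (i, j) : W ι V)) '' Set.univ := by
    ext x
    rcases x with i' | ⟨p, j⟩ | q
    · simp [HG, HAdj, zz, ww]
    · simp [HG, HAdj, zz, ww]
    · simp [HG, HAdj, zz, ww]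
  rw [h, Set.ncard_union_eq ?_ (Set.toFinite _) (Set.toFinite _)]
  · rw [Set.ncard_image_of_injective _ (fun x y h => by simpa using h),
      Set.ncard_image_of_injective _ (fun x y h => by simpa using h), hC, Set.ncard_univ]
    simp
  · rw [Set.disjoint_left]
    rintro x ⟨y, _, rfl⟩ ⟨z, _, hz⟩
    simp at hz

/-- degree of the gadget roots -/
lemma ncard_ww (hab : a ≠ b) (p : ι × Fin 3) :
    ((HG C G a b).neighborSet (ww p)).ncard = 5 := by
  have h : (HG C G a b).neighborSet (ww p) =
      insert (zz p.1) ((fun t : Fin 2 => (cc p t a : W ι V)) '' Set.univ ∪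
        (fun t : Fin 2 => (cc p t b : W ι V)) '' Set.univ) := by
    ext x
    rcases x with i' | p' | ⟨q1, q2, q3, q4⟩
    · simp [HG, HAdj, zz, ww]
    · simp [HG, HAdj, zz, ww]
    · simp only [HG, HAdj, mem_neighborSet, Set.mem_insert_iff, reduceCtorEq, Set.image_univ,
        Set.mem_union, Set.mem_range, Sum.inr.injEq, Prod.mk.injEq, false_or]
      constructor
      · rintro ⟨h1, h2, h3 | h3⟩
        · exact Or.inl ⟨q3, h1, h2, rfl, h3.symm⟩
        · exact Or.inr ⟨q3, h1, h2, rfl, h3.symm⟩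
      · rintro (⟨t, h1, h2, h3, h4⟩ | ⟨t, h1, h2, h3, h4⟩)
        · exact ⟨h1, h2, Or.inl h4.symm⟩
        · exact ⟨h1, h2, Or.inr h4.symm⟩
  rw [h, Set.ncard_insert_of_notMem (by simp) (Set.toFinite _),
    Set.ncard_union_eq ?_ (Set.toFinite _) (Set.toFinite _)]
  · rw [Set.ncard_image_of_injective _ (fun x y h => by simpa using h),
      Set.ncard_image_of_injective _ (fun x y h => by simpa using h), Set.ncard_univ]
    simp
  · rw [Set.disjoint_left]
    rintro x ⟨y, _, rfl⟩ ⟨z, _, hz⟩
    simp only [Sum.inr.injEq, Prod.mk.injEq] at hz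
    exact hab hz.2.2.2.symm

/-- The map sending a neighbour of `v` in a graph on `V` to the corresponding neighbour of
`cc p t v`. -/
noncomputable def gm (a b : V) (p : ι × Fin 3) (t : Fin 2) (v : V) (u : V) : W ι V :=
  open Classical in if (v = a ∧ u = b) ∨ (v = b ∧ u = a) then ww p else cc p t u

lemma gm_inj (hab : a ≠ b) (p : ι × Fin 3) (t : Fin 2) (v : V) :
    Function.Injective (gm (ι := ι) a b p t v) := by
  intro x y h
  unfold gm at h
  split_ifs at h with h1 h2 h3
  · rcases h1 with ⟨h1, h1'⟩ | ⟨h1, h1'⟩ <;> rcases h2 with ⟨h2, h2'⟩ | ⟨h2, h2'⟩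
    · rw [h1', h2']
    · exact absurd (h1.symm.trans h2) hab
    · exact absurd (h2.symm.trans h1) hab
    · rw [h1', h2']
  · simp at h
  · simp at h
  · exact cc_inj h

/-- degree of the copies -/
lemma nbr_cc (hG : G.Adj a b) (p : ι × Fin 3) (t : Fin 2) (v : V) :
    (HG C G a b).neighborSet (cc p t v) = gm a b p t v '' (G.neighborSet v) := by
  ext x
  rcases x with i' | p' | ⟨q1, q2, q3, q4⟩
  · simp only [HG, HAdj, mem_neighborSet, Set.mem_image, false_iff, not_exists, not_and]
    intro u _ h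
    unfold gm at h
    split_ifs at h
  · simp only [HG, HAdj, mem_neighborSet, Set.mem_image]
    constructor
    · rintro ⟨h1, h2, h3⟩
      have hp : p' = p := Prod.ext h1 h2
      subst hp
      rcases h3 with h3 | h3
      · refine ⟨b, by rw [h3]; exact hG, ?_⟩
        unfold gm
        rw [if_pos (Or.inl ⟨h3, rfl⟩)]
      · refine ⟨a, by rw [h3]; exact hG.symm, ?_⟩
        unfold gm
        rw [if_pos (Or.inr ⟨h3, rfl⟩)]
    · rintro ⟨u, hu, h⟩
      unfold gm at h
      split_ifs at h with h1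
      · simp only [Sum.inr.injEq, Sum.inl.injEq] at h
        subst h
        refine ⟨rfl, rfl, ?_⟩
        rcases h1 with h1 | h1
        · exact Or.inl h1.1
        · exact Or.inr h1.1
      · simp at h
  · simp only [HG, HAdj, mem_neighborSet, Set.mem_image]
    constructor
    · rintro ⟨h1, h2, h3, h4, h5, h6⟩
      refine ⟨q4, h4, ?_⟩
      unfold gm
      rw [if_neg (by rintro (h | h); exacts [h5 h, h6 h])]
      show (Sum.inr (Sum.inr (p.1, p.2, t, q4)) : W ι V) = _
      rw [h1, h2, h3]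
    · rintro ⟨u, hu, h⟩
      unfold gm at h
      split_ifs at h with h1
      · simp at h
      · simp only [Sum.inr.injEq, Prod.mk.injEq] at h
        obtain ⟨h2, h3, h4, rfl⟩ := h
        exact ⟨h2, h3, h4, hu, fun h => h1 (Or.inl h), fun h => h1 (Or.inr h)⟩

lemma ncard_cc (hG : G.Adj a b) (h5 : ∀ v, (G.neighborSet v).ncard = 5)
    (p : ι × Fin 3) (t : Fin 2) (v : V) :
    ((HG C G a b).neighborSet (cc p t v)).ncard = 5 := by
  rw [nbr_cc hG, Set.ncard_image_of_injective _ (gm_inj hG.ne p t v), h5]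

/-- the big graph is 5-regular -/
lemma HG_reg [Finite ι] (hC : ∀ i, (C.neighborSet i).ncard = 2) (hG : G.Adj a b)
    (h5 : ∀ v, (G.neighborSet v).ncard = 5) (x : W ι V) :
    ((HG C G a b).neighborSet x).ncard = 5 := by
  rcases x with i | p | ⟨q1, q2, q3, q4⟩
  · exact ncard_zz hC i
  · exact ncard_ww hG.ne p
  · exact ncard_cc hG h5 (q1, q2) q3 q4

/-- the big graph is connected -/
lemma HG_conn (hC : C.Connected) (hG : G.Adj a b) (hGc : G.Connected) :
    (HG C G a b).Connected := by
  have hz : ∀ i i' : ι, (HG C G a b).Reachable (zz i) (zz i') := by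
    intro i i'
    obtain ⟨w⟩ := hC.preconnected i i'
    induction w with
    | nil => exact Reachable.refl _
    | @cons x y z h _ ih =>
      exact (Adj.reachable (show (HG C G a b).Adj (zz x) (zz y) from h)).trans ih
  have hw : ∀ p : ι × Fin 3, (HG C G a b).Reachable (ww p) (zz p.1) := by
    intro p
    exact Adj.reachable (show (HG C G a b).Adj (ww p) (zz p.1) from rfl)
  have hc : ∀ (p : ι × Fin 3) (t : Fin 2) (v : V), (HG C G a b).Reachable (cc p t v) (ww p) := by
    intro p t v
    have key : ∀ x y : V, G.Walk x y → y = a → (HG C G a b).Reachable (cc p t x) (ww p) := by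
      intro x y w
      induction w with
      | nil =>
        intro hy
        exact Adj.reachable (show (HG C G a b).Adj (cc p t _) (ww p) from ⟨rfl, rfl, Or.inl hy⟩)
      | @cons x y z h _ ih =>
        intro hz'
        by_cases hx : (x = a ∧ y = b) ∨ (x = b ∧ y = a)
        · refine Adj.reachable (show (HG C G a b).Adj (cc p t x) (ww p) from ⟨rfl, rfl, ?_⟩)
          rcases hx with hx | hx
          · exact Or.inl hx.1
          · exact Or.inr hx.1
        · refine (Adj.reachable ?_).trans (ih hz')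
          refine (show (HG C G a b).Adj (cc p t x) (cc p t y) from ⟨rfl, rfl, rfl, h, ?_, ?_⟩)
          · exact fun h' => hx (Or.inl h')
          · exact fun h' => hx (Or.inr h')
    obtain ⟨w⟩ := hGc.preconnected v a
    exact key v a w rfl
  obtain ⟨i0⟩ := hC.nonempty
  have hall : ∀ x : W ι V, (HG C G a b).Reachable x (zz i0) := by
    rintro (i | p | ⟨q1, q2, q3, q4⟩)
    · exact hz i i0
    · exact (hw p).trans (hz _ _)
    · exact ((hc (q1, q2) q3 q4).trans (hw (q1, q2))).trans (hz _ _)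
  have : Nonempty (W ι V) := ⟨zz i0⟩
  exact ⟨fun x y => (hall x).trans (hall y).symm⟩

end Pool.Agent.H567R3.OF
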