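import Mathlib

namespace Pool.Agent.H567R3.OF

open Finset

variable {V Λ : Type} [Fintype V] [DecidableEq V] [DecidableEq Λ]

/-- a link is bad for the colouring `χ` -/
def Bad (e₁ e₂ : Λ → V) (σ : Λ → Bool) (χ : V → Bool) (l : Λ) : Prop :=
  (χ (e₁ l) = χ (e₂ l)) ↔ σ l = true

instance (e₁ e₂ : Λ → V) (σ : Λ → Bool) (χ : V → Bool) : DecidablePred (Bad e₁ e₂ σ χ) :=
  fun _ => by unfold Bad; infer_instance

lemma bad_flip {e₁ e₂ : Λ → V} {σ : Λ → Bool} {χ : V → Bool} {u : V} {l : Λ}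
    (hne : e₁ l ≠ e₂ l) (hu : e₁ l = u ∨ e₂ l = u) :
    Bad e₁ e₂ σ (Function.update χ u (!χ u)) l ↔ ¬ Bad e₁ e₂ σ χ l := by
  unfold Bad
  rcases hu with hu | hu
  · subst hu
    rw [Function.update_self, Function.update_of_ne (Ne.symm hne)]
    cases h1 : χ (e₁ l) <;> cases h2 : χ (e₂ l) <;> cases h3 : σ l <;> simp
  · subst hu
    rw [Function.update_self, Function.update_of_ne hne]
    cases h1 : χ (e₁ l) <;> cases h2 : χ (e₂ l) <;> cases h3 : σ l <;> simp

lemma bad_flip_other {e₁ e₂ : Λ → V} {σ : Λ → Bool} {χ : V → Bool} {u : V} {l : Λ}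
    (h1 : e₁ l ≠ u) (h2 : e₂ l ≠ u) :
    Bad e₁ e₂ σ (Function.update χ u (!χ u)) l ↔ Bad e₁ e₂ σ χ l := by
  unfold Bad
  rw [Function.update_of_ne h1, Function.update_of_ne h2]

/-- Local optimum. -/
lemma exists_local (E : Finset Λ) (e₁ e₂ : Λ → V) (hne : ∀ l ∈ E, e₁ l ≠ e₂ l) (σ : Λ → Bool)
    (c : V → ℕ) (hdeg : ∀ u, #{l ∈ E | e₁ l = u ∨ e₂ l = u} + c u ≤ 4) :
    ∃ χ : V → Bool, (∀ u, #{l ∈ E | (e₁ l = u ∨ e₂ l = u) ∧ Bad e₁ e₂ σ χ l} ≤ 2) ∧
      (∀ u, χ u = true → c u ≤ 1 ∧ (c u = 1 →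
        #{l ∈ E | (e₁ l = u ∨ e₂ l = u) ∧ Bad e₁ e₂ σ χ l} = 0)) := by
  classical
  let Φ : (V → Bool) → ℕ := fun χ => #{l ∈ E | Bad e₁ e₂ σ χ l} + ∑ u, if χ u then 2 * c u else 0
  obtain ⟨χ, -, hχ⟩ := Finset.exists_min_image (Finset.univ : Finset (V → Bool)) Φ
    ⟨fun _ => false, Finset.mem_univ _⟩
  have key : ∀ u, #{l ∈ E | (e₁ l = u ∨ e₂ l = u) ∧ Bad e₁ e₂ σ χ l} +
      (if χ u then 2 * c u else 0) ≤
      #{l ∈ E | (e₁ l = u ∨ e₂ l = u) ∧ ¬ Bad e₁ e₂ σ χ l} + (if χ u then 0 else 2 * c u) := by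
    intro u
    have h := hχ (Function.update χ u (!χ u)) (Finset.mem_univ _)
    simp only [Φ] at h
    have s1 : ∀ χ' : V → Bool, #{l ∈ E | Bad e₁ e₂ σ χ' l} =
        #{l ∈ E | (e₁ l = u ∨ e₂ l = u) ∧ Bad e₁ e₂ σ χ' l} +
        #{l ∈ E | ¬ (e₁ l = u ∨ e₂ l = u) ∧ Bad e₁ e₂ σ χ' l} := by
      intro χ'
      rw [← Finset.card_union_of_disjoint]
      · congr 1
        ext l
        simp only [Finset.mem_filter, Finset.mem_union]
        tauto
      · rw [Finset.disjoint_left]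
        intro l hl hl'
        simp only [Finset.mem_filter] at hl hl'
        exact hl'.2.1 hl.2.1
    have s2 : #{l ∈ E | (e₁ l = u ∨ e₂ l = u) ∧ Bad e₁ e₂ σ (Function.update χ u (!χ u)) l} =
        #{l ∈ E | (e₁ l = u ∨ e₂ l = u) ∧ ¬ Bad e₁ e₂ σ χ l} := by
      congr 1
      ext l
      simp only [Finset.mem_filter]
      constructor
      · rintro ⟨h1, h2, h3⟩
        exact ⟨h1, h2, (bad_flip (hne l h1) h2).1 h3⟩
      · rintro ⟨h1, h2, h3⟩
        exact ⟨h1, h2, (bad_flip (hne l h1) h2).2 h3⟩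
    have s3 : #{l ∈ E | ¬ (e₁ l = u ∨ e₂ l = u) ∧
        Bad e₁ e₂ σ (Function.update χ u (!χ u)) l} =
        #{l ∈ E | ¬ (e₁ l = u ∨ e₂ l = u) ∧ Bad e₁ e₂ σ χ l} := by
      congr 1
      ext l
      simp only [Finset.mem_filter]
      constructor
      · rintro ⟨h1, h2, h3⟩
        exact ⟨h1, h2, (bad_flip_other (fun h => h2 (Or.inl h)) (fun h => h2 (Or.inr h))).1 h3⟩
      · rintro ⟨h1, h2, h3⟩
        exact ⟨h1, h2, (bad_flip_other (fun h => h2 (Or.inl h)) (fun h => h2 (Or.inr h))).2 h3⟩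
    have s4 : ∀ χ' : V → Bool, ∑ v, (if χ' v then 2 * c v else 0) =
        (if χ' u then 2 * c u else 0) + ∑ v ∈ Finset.univ.erase u, (if χ' v then 2 * c v else 0) := by
      intro χ'
      exact (Finset.add_sum_erase _ (fun v => if χ' v then 2 * c v else 0)
        (Finset.mem_univ u)).symm
    have s5 : ∑ v ∈ Finset.univ.erase u, (if Function.update χ u (!χ u) v then 2 * c v else 0) =
        ∑ v ∈ Finset.univ.erase u, (if χ v then 2 * c v else 0) := by
      refine Finset.sum_congr rfl fun v hv => ?_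
      rw [Function.update_of_ne (Finset.ne_of_mem_erase hv)]
    rw [s1 χ, s1 (Function.update χ u (!χ u)), s2, s3, s4 χ, s4 (Function.update χ u (!χ u)), s5,
      Function.update_self] at h
    cases hu : χ u <;> simp [hu] at h ⊢ <;> omega
  have hsplit : ∀ u, #{l ∈ E | e₁ l = u ∨ e₂ l = u} =
      #{l ∈ E | (e₁ l = u ∨ e₂ l = u) ∧ Bad e₁ e₂ σ χ l} +
      #{l ∈ E | (e₁ l = u ∨ e₂ l = u) ∧ ¬ Bad e₁ e₂ σ χ l} := by
    intro u
    rw [← Finset.card_union_of_disjoint]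
    · congr 1
      ext l
      simp only [Finset.mem_filter, Finset.mem_union]
      tauto
    · rw [Finset.disjoint_left]
      intro l hl hl'
      simp only [Finset.mem_filter] at hl hl'
      exact hl'.2.2 hl.2.2
  refine ⟨χ, ?_, ?_⟩
  · intro u
    have h1 := key u
    have h2 := hsplit u
    have h3 := hdeg u
    cases hu : χ u <;> simp [hu] at h1 <;> omega
  · intro u hu
    have h1 := key u
    have h2 := hsplit u
    have h3 := hdeg u
    simp [hu] at h1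
    omega

/-- The bad links can be assigned injectively to their ends. -/
lemma exists_assign (E : Finset Λ) (e₁ e₂ : Λ → V) (hne : ∀ l ∈ E, e₁ l ≠ e₂ l)
    (hdeg : ∀ u, #{l ∈ E | e₁ l = u ∨ e₂ l = u} ≤ 2) :
    ∃ t : Λ → V, (∀ l ∈ E, t l = e₁ l ∨ t l = e₂ l) ∧ (∀ l ∈ E, ∀ l' ∈ E, t l = t l' → l = l') := by
  classical
  have hall := (Finset.all_card_le_biUnion_card_iff_exists_injective
    (fun l : E => ({e₁ l.1, e₂ l.1} : Finset V))).1 ?_
  · obtain ⟨f, hf1, hf2⟩ := hall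
    refine ⟨fun l => if h : l ∈ E then f ⟨l, h⟩ else e₁ l, ?_, ?_⟩
    · intro l hl
      have := hf2 ⟨l, hl⟩
      simp only [Finset.mem_insert, Finset.mem_singleton] at this
      simpa [hl] using this
    · intro l hl l' hl' h
      simp only [hl, hl', dif_pos] at h
      have := hf1 h
      exact congrArg Subtype.val this
  · intro s
    have h1 : ∑ l ∈ s, #(({e₁ l.1, e₂ l.1} : Finset V)) = 2 * #s := by
      rw [Finset.sum_const_nat (m := 2), mul_comm]
      intro l _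
      exact Finset.card_pair (hne l.1 l.2)
    set N := s.biUnion (fun l : E => ({e₁ l.1, e₂ l.1} : Finset V)) with hN
    have h2 : ∑ l ∈ s, #(({e₁ l.1, e₂ l.1} : Finset V)) =
        ∑ u ∈ N, #{l ∈ s | u ∈ (({e₁ l.1, e₂ l.1} : Finset V))} := by
      refine Eq.trans ?_ (Finset.sum_card_bipartiteAbove_eq_sum_card_bipartiteBelow
        (s := s) (t := N) (fun (l : E) (u : V) => u ∈ (({e₁ l.1, e₂ l.1} : Finset V))))
      refine Finset.sum_congr rfl fun l hl => ?_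
      congr 1
      ext u
      simp only [Finset.bipartiteAbove, Finset.mem_filter, hN, Finset.mem_biUnion]
      constructor
      · intro hu
        exact ⟨⟨l, hl, hu⟩, hu⟩
      · exact fun hu => hu.2
    have h3 : ∀ u ∈ N, #{l ∈ s | u ∈ (({e₁ l.1, e₂ l.1} : Finset V))} ≤ 2 := by
      intro u _
      refine le_trans ?_ (hdeg u)
      rw [← Finset.card_image_of_injective _ Subtype.val_injective]
      refine Finset.card_le_card ?_
      intro l hl
      simp only [Finset.mem_image, Finset.mem_filter, Finset.mem_insert, Finset.mem_singleton] at hl ⊢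
      obtain ⟨⟨l', hl'⟩, ⟨_, h⟩, rfl⟩ := hl
      exact ⟨hl', h.imp Eq.symm Eq.symm⟩
    have h4 := Finset.sum_le_card_nsmul N _ 2 h3
    rw [smul_eq_mul] at h4
    omega

end Pool.Agent.H567R3.OF
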