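import Pool.Agent.H567R3.OF.Gadget

namespace Pool.Agent.H567R3.OF

open SimpleGraph

/-- Reduction to connected graphs. -/
lemma of_connected
    (h : ∀ (V : Type) [Fintype V] (G : SimpleGraph V), G.Connected →
      (∀ v, (G.neighborSet v).ncard = 5) → ∃ H ≤ G, ∀ v, Good H v)
    (V : Type) [Fintype V] (G : SimpleGraph V) (h5 : ∀ v, (G.neighborSet v).ncard = 5) :
    ∃ H ≤ G, ∀ v, Good H v := by
  classical
  have h1 : ∀ c : G.ConnectedComponent, ∃ H ≤ c.toSimpleGraph, ∀ v, Good H v := by
    intro c
    haveI : Fintype c := Fintype.ofFinite _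
    refine h c c.toSimpleGraph c.connected_toSimpleGraph ?_
    rintro ⟨v, hv⟩
    have hv' : G.neighborSet v = Subtype.val '' (c.toSimpleGraph.neighborSet ⟨v, hv⟩) := by
      ext x
      simp only [mem_neighborSet, Set.mem_image, Subtype.exists, exists_and_right, exists_eq_right]
      constructor
      · intro hx
        refine ⟨?_, hx⟩
        have : G.connectedComponentMk x = G.connectedComponentMk v :=
          ConnectedComponent.sound hx.symm.reachable
        have hv2 : G.connectedComponentMk v = c := hv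
        exact this.trans hv2
      · rintro ⟨_, hx⟩
        exact hx
    rw [← h5 v, hv', Set.ncard_image_of_injective _ Subtype.val_injective]
  choose H hH1 hH2 using h1
  let F : SimpleGraph V :=
    { Adj := fun u v => ∃ (c : G.ConnectedComponent) (hu : u ∈ c) (hv : v ∈ c),
        (H c).Adj ⟨u, hu⟩ ⟨v, hv⟩
      symm := ⟨fun u v ⟨c, hu, hv, h⟩ => ⟨c, hv, hu, h.symm⟩⟩
      loopless := ⟨fun u ⟨c, hu, hv, h⟩ => (H c).loopless.irrefl _ h⟩ }
  refine ⟨F, ?_, ?_⟩
  · rintro u v ⟨c, hu, hv, huv⟩
    exact hH1 c huv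
  · intro v
    have hv' : F.neighborSet v =
        Subtype.val '' ((H (G.connectedComponentMk v)).neighborSet ⟨v, rfl⟩) := by
      ext x
      simp only [mem_neighborSet, Set.mem_image, Subtype.exists, exists_and_right, exists_eq_right]
      constructor
      · rintro ⟨c, hu, hv, hx⟩
        have hu2 : G.connectedComponentMk v = c := hu
        subst hu2
        exact ⟨hv, hx⟩
      · rintro ⟨hx', hx⟩
        exact ⟨_, rfl, hx', hx⟩
    have := hH2 (G.connectedComponentMk v) ⟨v, rfl⟩
    unfold Good at this ⊢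
    rwa [hv', Set.ncard_image_of_injective _ Subtype.val_injective]

/-- number of vertices of the big graph -/
lemma card_W (ι V : Type) [Fintype ι] [Fintype V] :
    Fintype.card (W ι V) = Fintype.card ι * (6 * Fintype.card V + 4) := by
  simp only [W, Fintype.card_sum, Fintype.card_prod, Fintype.card_fin]
  ring

/-- From one counterexample: connected 5-regular graphs in which every spanning subgraph has
many bad vertices. -/
lemma amplify (V : Type) [Fintype V] (G : SimpleGraph V) (hGc : G.Connected)
    (h5 : ∀ v, (G.neighborSet v).ncard = 5) (hno : ¬ ∃ H ≤ G, ∀ v, Good H v) (m : ℕ) :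
    ∃ (H : SimpleGraph (W (Fin (m + 3)) V)), H.Connected ∧ (∀ x, (H.neighborSet x).ncard = 5) ∧
      ∀ F ≤ H, 3 * (m + 3) ≤ {x | ¬ Good F x}.ncard := by
  obtain ⟨a⟩ := hGc.nonempty
  have hne : (G.neighborSet a).Nonempty := by
    rw [← Set.ncard_pos (Set.toFinite _), h5]; norm_num
  obtain ⟨b, hab⟩ := hne
  have hab' : G.Adj a b := hab
  refine ⟨HG (cycleGraph (m + 3)) G a b, ?_, ?_, ?_⟩
  · exact HG_conn cycleGraph_connected hab' hGc
  · refine HG_reg ?_ hab' h5
    intro i
    rw [← Nat.card_coe_set_eq, Nat.card_eq_fintype_card, card_neighborSet_eq_degree]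
    exact cycleGraph_degree_three_le
  · intro F hF
    have := bad_count (ι := Fin (m + 3)) hab' hno F hF
    rwa [Nat.card_fin] at this

end Pool.Agent.H567R3.OF
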