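import Pool.Agent.H567R3.OF.Picks

namespace Pool.Agent.H567R3.OF

open SimpleGraph Finset

section

variable {V ι : Type} [Fintype V]

/-- the edges between `S` and the class `i` of the remaining part, as pairs -/
def BE (G : SimpleGraph V) (S R : Set V) (κ : V → ι) (i : ι) : Set (V × V) :=
  {p | p.1 ∈ S ∧ p.2 ∉ S ∧ p.2 ∉ R ∧ κ p.2 = i ∧ G.Adj p.1 p.2}

/-- choice of the two marked boundary edges `P`, `Q` and the unmarked one `U` of a class -/
lemma exists_marked (G : SimpleGraph V) (S R : Set V) (κ : V → ι) (r : V → V)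
    (hr : ∀ s ∈ S, r s ∉ S ∧ r s ∉ R ∧ G.Adj s (r s) ∧ ∀ s' ∈ S, κ (r s) = κ (r s') → s = s')
    (i : ι) (h3 : (BE G S R κ i).ncard = 3) :
    ∃ P Q U : V × V, P ≠ Q ∧ P ≠ U ∧ Q ≠ U ∧ BE G S R κ i = {P, Q, U} ∧
      ∀ s ∈ S, κ (r s) = i → U = (s, r s) := by
  classical
  have hU : ∃ U ∈ BE G S R κ i, ∀ s ∈ S, κ (r s) = i → U = (s, r s) := by
    by_cases h : ∃ s ∈ S, κ (r s) = i
    · obtain ⟨s, hs, hi⟩ := h
      refine ⟨(s, r s), ⟨hs, (hr s hs).1, (hr s hs).2.1, hi, (hr s hs).2.2.1⟩, ?_⟩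
      intro s' hs' hi'
      have := (hr s hs).2.2.2 s' hs' (hi.trans hi'.symm)
      rw [this]
    · have hne : (BE G S R κ i).Nonempty := by
        rw [← Set.ncard_pos (Set.toFinite _), h3]; norm_num
      obtain ⟨U, hU⟩ := hne
      exact ⟨U, hU, fun s hs hi => absurd ⟨s, hs, hi⟩ h⟩
  obtain ⟨U, hUm, hU⟩ := hU
  have h2 : (BE G S R κ i \ {U}).ncard = 2 := by
    rw [Set.ncard_sdiff_singleton_of_mem hUm, h3]
  rw [Set.ncard_eq_two] at h2
  obtain ⟨P, Q, hPQ, hPQ'⟩ := h2
  have hP : P ∈ BE G S R κ i \ {U} := by rw [hPQ']; simp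
  have hQ : Q ∈ BE G S R κ i \ {U} := by rw [hPQ']; simp
  refine ⟨P, Q, U, hPQ, hP.2, hQ.2, ?_, hU⟩
  ext x
  by_cases hx : x = U
  · subst hx
    simp [hUm]
  · constructor
    · intro h
      have : x ∈ BE G S R κ i \ {U} := ⟨h, hx⟩
      rw [hPQ'] at this
      rcases this with h | h
      · exact Or.inl h
      · exact Or.inr (Or.inl h)
    · rintro (h | h | h)
      · rw [h]; exact hP.1
      · rw [h]; exact hQ.1
      · exact absurd h hx

/-- From a colouring and picks on `S` to a `{1,4}`-factor. -/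
lemma extend_picks (G : SimpleGraph V) (h5 : ∀ v, (G.neighborSet v).ncard = 5)
    (S R : Set V) (hSR : ∀ v ∈ S, v ∉ R) (κ : V → ι)
    (hRD : ∀ u ∈ R, ∀ v, v ∉ S → v ∉ R → ¬ G.Adj u v)
    (hκ : ∀ u v, u ∉ S → u ∉ R → v ∉ S → v ∉ R → G.Adj u v → κ u = κ v)
    (hRM : ∃ M : G.Subgraph, M.IsMatching ∧ M.verts = R)
    (hPM : ∀ s ∈ S, ∀ x, x ∉ S → x ∉ R → G.Adj s x → ∃ M : G.Subgraph, M.IsMatching ∧
      M.verts = {v | v ∉ S ∧ v ∉ R ∧ κ v = κ x ∧ v ≠ x})
    (χ : V → Bool) (m : V → V) (hm : ∀ u ∈ S, G.Adj u (m u))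
    (hSS : ∀ u ∈ S, ∀ w ∈ S, G.Adj u w →
      ((χ u = true ↔ m u = w) ↔ (χ w = true ↔ m w = u)))
    (hSRe : ∀ u ∈ S, ∀ v ∈ R, G.Adj u v → (χ u = true ↔ m u = v))
    (hD : ∀ x, x ∉ S → x ∉ R → ∃ p₀ ∈ BE G S R κ (κ x), ∃ b : Bool,
      ∀ p ∈ BE G S R κ (κ x), ((χ p.1 = true ↔ m p.1 = p.2) ↔ (b = true ↔ p = p₀))) :
    ∃ H ≤ G, ∀ v, (H.neighborSet v).ncard = 1 ∨ (H.neighborSet v).ncard = 4 := by
  classical
  rcases isEmpty_or_nonempty V with hne | hne
  · exact ⟨⊥, bot_le, fun v => isEmptyElim v⟩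
  obtain ⟨M, hM, hMv⟩ := hRM
  obtain ⟨gR, hgR1, hgR2, hgR3⟩ := exists_partner M hM
  rw [hMv] at hgR1 hgR2 hgR3
  -- data for classes
  have hcl : ∀ i : ι, ∃ (p₀ : V × V) (b : Bool) (g : V → V), (∃ x, x ∉ S ∧ x ∉ R ∧ κ x = i) →
      (p₀ ∈ BE G S R κ i ∧
        (∀ p ∈ BE G S R κ i, ((χ p.1 = true ↔ m p.1 = p.2) ↔ (b = true ↔ p = p₀))) ∧
        (∀ v, v ∉ S → v ∉ R → κ v = i → v ≠ p₀.2 →
          G.Adj v (g v) ∧ g v ∉ S ∧ g v ∉ R ∧ κ (g v) = i ∧ g v ≠ p₀.2 ∧ g (g v) = v)) := by
    intro i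
    by_cases h : ∃ x, x ∉ S ∧ x ∉ R ∧ κ x = i
    · obtain ⟨x, hx1, hx2, rfl⟩ := h
      obtain ⟨p₀, hp₀, b, hb⟩ := hD x hx1 hx2
      obtain ⟨M', hM', hMv'⟩ := hPM p₀.1 hp₀.1 p₀.2 hp₀.2.1 hp₀.2.2.1 hp₀.2.2.2.2
      obtain ⟨g, hg1, hg2, hg3⟩ := exists_partner M' hM'
      rw [hMv', hp₀.2.2.2.1] at hg1 hg2 hg3
      refine ⟨p₀, b, g, fun _ => ⟨hp₀, hb, ?_⟩⟩
      intro v hv1 hv2 hv3 hv4
      have hv : v ∈ {v | v ∉ S ∧ v ∉ R ∧ κ v = κ x ∧ v ≠ p₀.2} := ⟨hv1, hv2, hv3, hv4⟩
      have := hg2 v hv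
      exact ⟨hg1 v hv, this.1, this.2.1, this.2.2.1, this.2.2.2, hg3 v hv⟩
    · obtain ⟨v⟩ := hne
      exact ⟨(v, v), true, id, fun h' => absurd h' h⟩
  choose p₀ b g hg using hcl
  let c : V → Bool := fun v => if v ∈ S then χ v else if v ∈ R then false else b (κ v)
  let m' : V → V := fun v => if v ∈ S then m v else if v ∈ R then gR v else
    if v = (p₀ (κ v)).2 then (p₀ (κ v)).1 else g (κ v) v
  have cS : ∀ v ∈ S, c v = χ v := fun v hv => by simp only [c, if_pos hv]
  have cR : ∀ v ∈ R, c v = false := fun v hv => by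
    have : v ∉ S := fun h => hSR v h hv
    simp only [c, if_neg this, if_pos hv]
  have cD : ∀ v, v ∉ S → v ∉ R → c v = b (κ v) := fun v h1 h2 => by
    simp only [c, if_neg h1, if_neg h2]
  have mS : ∀ v ∈ S, m' v = m v := fun v hv => by simp only [m', if_pos hv]
  have mR : ∀ v ∈ R, m' v = gR v := fun v hv => by
    have : v ∉ S := fun h => hSR v h hv
    simp only [m', if_neg this, if_pos hv]
  have mD1 : ∀ v, v ∉ S → v ∉ R → v = (p₀ (κ v)).2 → m' v = (p₀ (κ v)).1 := fun v h1 h2 h3 => by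
    simp only [m', if_neg h1, if_neg h2]
    rw [if_pos h3]
  have mD2 : ∀ v, v ∉ S → v ∉ R → v ≠ (p₀ (κ v)).2 → m' v = g (κ v) v := fun v h1 h2 h3 => by
    simp only [m', if_neg h1, if_neg h2]
    rw [if_neg h3]
  have hg' : ∀ v, v ∉ S → v ∉ R → _ := fun v h1 h2 => hg (κ v) ⟨v, h1, h2, rfl⟩
  have key : ∀ v w, G.Adj v w → (v ∈ S ∨ (v ∉ S ∧ w ∉ S)) →
      ((c v = true ↔ m' v = w) ↔ (c w = true ↔ m' w = v)) := by
    intro v w hvw hor
    rcases hor with hv | ⟨hv, hw⟩
    · by_cases hw : w ∈ S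
      · rw [cS v hv, cS w hw, mS v hv, mS w hw]
        exact hSS v hv w hw hvw
      · by_cases hwR : w ∈ R
        · rw [cS v hv, cR w hwR, mS v hv, mR w hwR]
          have h1 := hSRe v hv w hwR hvw
          have h2 : gR w ≠ v := fun h => by
            have := hgR2 w hwR
            rw [h] at this
            exact hSR v hv this
          constructor
          · intro _
            exact ⟨fun h => absurd h (by simp), fun h => absurd h h2⟩
          · intro _
            exact h1
        · rw [cS v hv, cD w hw hwR, mS v hv]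
          obtain ⟨hp0, hb, hgg⟩ := hg' w hw hwR
          have hp : (v, w) ∈ BE G S R κ (κ w) := ⟨hv, hw, hwR, rfl, hvw⟩
          have h1 := hb (v, w) hp
          rw [show ((v, w) : V × V).1 = v from rfl, show ((v, w) : V × V).2 = w from rfl] at h1
          rw [h1]
          have h2 : (v, w) = p₀ (κ w) ↔ m' w = v := by
            constructor
            · intro h
              have h3 : w = (p₀ (κ w)).2 := by rw [← h]
              rw [mD1 w hw hwR h3, ← h]
            · intro h
              by_cases h3 : w = (p₀ (κ w)).2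
              · rw [mD1 w hw hwR h3] at h
                exact Prod.ext h.symm h3
              · rw [mD2 w hw hwR h3] at h
                have := (hgg w hw hwR rfl h3).2.1
                rw [h] at this
                exact absurd hv this
          rw [h2]
    · by_cases hvR : v ∈ R
      · have hwR : w ∈ R := by
          by_contra hwR
          exact hRD v hvR w hw hwR hvw
        rw [cR v hvR, cR w hwR, mR v hvR, mR w hwR]
        have : gR v = w ↔ gR w = v := by
          constructor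
          · intro h; rw [← h, hgR3 v hvR]
          · intro h; rw [← h, hgR3 w hwR]
        rw [this]
      · have hwR : w ∉ R := fun hwR => hRD w hwR v hv hvR hvw.symm
        have hk : κ v = κ w := hκ v w hv hvR hw hwR hvw
        rw [cD v hv hvR, cD w hw hwR, hk]
        obtain ⟨hp0, hb, hgg⟩ := hg' w hw hwR
        have : m' v = w ↔ m' w = v := by
          by_cases h3 : v = (p₀ (κ v)).2
          · have h4 : w ≠ (p₀ (κ w)).2 := by
              intro h4
              rw [hk, ← h4] at h3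
              exact hvw.ne h3
            rw [mD1 v hv hvR h3, mD2 w hw hwR h4]
            constructor
            · intro h
              exfalso
              rw [hk] at h
              rw [← h] at hw
              exact hw hp0.1
            · intro h
              exfalso
              have h5 := (hgg w hw hwR rfl h4).2.2.2.2.1
              rw [h, ← hk] at h5
              exact h5 h3
          · rw [mD2 v hv hvR h3]
            rw [hk] at h3 ⊢
            by_cases h4 : w = (p₀ (κ w)).2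
            · rw [mD1 w hw hwR h4]
              constructor
              · intro h
                exfalso
                have h5 := (hgg v hv hvR hk h3).2.2.2.2.1
                rw [h] at h5
                exact h5 h4
              · intro h
                exfalso
                rw [← h] at hv
                exact hv hp0.1
            · rw [mD2 w hw hwR h4]
              constructor
              · intro h
                have h5 := (hgg v hv hvR hk h3).2.2.2.2.2
                rwa [h] at h5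
              · intro h
                have h5 := (hgg w hw hwR rfl h4).2.2.2.2.2
                rwa [h] at h5
        rw [this]
  refine factor_of_picks G h5 c m' ?_ ?_
  · intro v
    by_cases hv : v ∈ S
    · rw [mS v hv]; exact hm v hv
    · by_cases hvR : v ∈ R
      · rw [mR v hvR]; exact hgR1 v hvR
      · obtain ⟨hp0, hb, hgg⟩ := hg' v hv hvR
        by_cases h3 : v = (p₀ (κ v)).2
        · rw [mD1 v hv hvR h3]
          have := hp0.2.2.2.2
          rw [← h3] at this
          exact this.symm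
        · rw [mD2 v hv hvR h3]
          exact (hgg v hv hvR rfl h3).1
  · intro v w hvw
    by_cases hv : v ∈ S
    · exact key v w hvw (Or.inl hv)
    · by_cases hw : w ∈ S
      · exact (key w v hvw.symm (Or.inl hw)).symm
      · exact key v w hvw (Or.inr ⟨hv, hw⟩)

end

end Pool.Agent.H567R3.OF
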