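import Pool.Agent.H567R3.OF.Family

namespace Pool.Agent.H567R3.OF

open SimpleGraph Finset

lemma logic1 {a b : Bool} {p q : Prop} (hab : a ≠ b) (hpq : (p ∧ ¬ q) ∨ (q ∧ ¬ p)) :
    ((a = true ↔ p) ↔ (b = true ↔ q)) := by
  cases a <;> cases b <;> simp_all <;> tauto

lemma logic2 {a b : Bool} {p q : Prop} (hab : a = b) (hpq : (p ∧ ¬ q) ∨ (q ∧ ¬ p)) :
    ¬ ((a = true ↔ p) ↔ (b = true ↔ q)) := by
  subst hab
  cases a <;> simp <;> tauto

lemma logic3 {a b : Bool} (hab : a ≠ b) :
    ¬ ((a = true ↔ False) ↔ (b = true ↔ False)) := by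
  cases a <;> cases b <;> simp_all

lemma class_logic {α : Type} (A : α → Prop) (P Q U : α) (n1 : P ≠ Q) (n2 : P ≠ U) (n3 : Q ≠ U)
    (hd : ¬ (A P ↔ A Q)) :
    ∃ p₀ ∈ ({P, Q, U} : Set α), ∃ b : Bool, ∀ p ∈ ({P, Q, U} : Set α),
      (A p ↔ (b = true ↔ p = p₀)) := by
  classical
  by_cases hU : A U ↔ A P
  · refine ⟨Q, by simp, decide (A Q), ?_⟩
    intro p hp
    rw [decide_eq_true_iff]
    rcases hp with hp | hp | hp
    · subst hp
      simp only [n1]
      tauto
    · subst hp; simp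
    · have hp' : p = U := hp
      subst hp'
      simp only [n3.symm]
      tauto
  · refine ⟨P, by simp, decide (A P), ?_⟩
    intro p hp
    rw [decide_eq_true_iff]
    rcases hp with hp | hp | hp
    · subst hp; simp
    · subst hp
      simp only [n1.symm]
      tauto
    · have hp' : p = U := hp
      subst hp'
      simp only [n2.symm]
      tauto

variable {V ι : Type} [Fintype V]

theorem family (G : SimpleGraph V) (h5 : ∀ v, (G.neighborSet v).ncard = 5)
    (S R : Set V) (hSR : ∀ v ∈ S, v ∉ R) (κ : V → ι)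
    (hRD : ∀ u ∈ R, ∀ v, v ∉ S → v ∉ R → ¬ G.Adj u v)
    (hκ : ∀ u v, u ∉ S → u ∉ R → v ∉ S → v ∉ R → G.Adj u v → κ u = κ v)
    (hRM : ∃ M : G.Subgraph, M.IsMatching ∧ M.verts = R)
    (hB : ∀ x, x ∉ S → x ∉ R → (BE G S R κ (κ x)).ncard = 1 ∨
      ((BE G S R κ (κ x)).ncard = 3 ∧ Set.InjOn Prod.fst (BE G S R κ (κ x))))
    (hPM : ∀ s ∈ S, ∀ x, x ∉ S → x ∉ R → G.Adj s x → ∃ M : G.Subgraph, M.IsMatching ∧
      M.verts = {v | v ∉ S ∧ v ∉ R ∧ κ v = κ x ∧ v ≠ x})
    (r : V → V)
    (hr : ∀ s ∈ S, r s ∉ S ∧ r s ∉ R ∧ G.Adj s (r s) ∧ ∀ s' ∈ S, κ (r s) = κ (r s') → s = s') :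
    ∃ H ≤ G, ∀ v, (H.neighborSet v).ncard = 1 ∨ (H.neighborSet v).ncard = 4 := by
  classical
  rcases isEmpty_or_nonempty V with hne0 | hne0
  · exact ⟨⊥, bot_le, fun v => isEmptyElim v⟩
  have hMk : ∀ i : ι, ∃ P Q U : V × V, (BE G S R κ i).ncard = 3 →
      (P ≠ Q ∧ P ≠ U ∧ Q ≠ U ∧ BE G S R κ i = {P, Q, U} ∧
        ∀ s ∈ S, κ (r s) = i → U = (s, r s)) := by
    intro i
    by_cases h3 : (BE G S R κ i).ncard = 3
    · obtain ⟨P, Q, U, h⟩ := exists_marked G S R κ r hr i h3
      exact ⟨P, Q, U, fun _ => h⟩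
    · obtain ⟨v⟩ := hne0
      exact ⟨(v, v), (v, v), (v, v), fun h => absurd h h3⟩
  choose P Q U hMk using hMk
  let f := Fintype.equivFin V
  let E : Finset ((V × V) ⊕ ι) :=
    (univ.filter (fun p : V × V => p.1 ∈ S ∧ p.2 ∈ S ∧ G.Adj p.1 p.2 ∧ f p.1 < f p.2)).disjSum
      ((univ.image κ).filter (fun i => (BE G S R κ i).ncard = 3))
  let e₁ : (V × V) ⊕ ι → V := Sum.elim (fun p => p.1) (fun i => (P i).1)
  let e₂ : (V × V) ⊕ ι → V := Sum.elim (fun p => p.2) (fun i => (Q i).1)
  let σ : (V × V) ⊕ ι → Bool := Sum.elim (fun _ => false) (fun _ => true)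
  let φ : V → (V × V) ⊕ ι → V := fun u =>
    Sum.elim (fun p => if p.1 = u then p.2 else p.1)
      (fun i => if (P i).1 = u then (P i).2 else (Q i).2)
  have hEl : ∀ p : V × V, Sum.inl p ∈ E ↔
      (p.1 ∈ S ∧ p.2 ∈ S ∧ G.Adj p.1 p.2 ∧ f p.1 < f p.2) := by
    intro p
    simp only [E, Finset.inl_mem_disjSum, Finset.mem_filter, Finset.mem_univ, true_and]
  have hEr : ∀ i : ι, Sum.inr i ∈ E → (BE G S R κ i).ncard = 3 := by
    intro i hi
    simp only [E, Finset.inr_mem_disjSum, Finset.mem_filter] at hi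
    exact hi.2
  have hPm : ∀ i, (BE G S R κ i).ncard = 3 → P i ∈ BE G S R κ i := by
    intro i h3
    rw [(hMk i h3).2.2.2.1]; simp
  have hQm : ∀ i, (BE G S R κ i).ncard = 3 → Q i ∈ BE G S R κ i := by
    intro i h3
    rw [(hMk i h3).2.2.2.1]; simp
  have hinj : ∀ i, (BE G S R κ i).ncard = 3 → Set.InjOn Prod.fst (BE G S R κ i) := by
    intro i h3
    have h := hPm i h3
    have h' := hB (P i).2 h.2.1 h.2.2.1
    rw [h.2.2.2.1] at h'
    rcases h' with h' | h'
    · omega
    · exact h'.2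
  have hPQ1 : ∀ i, (BE G S R κ i).ncard = 3 → (P i).1 ≠ (Q i).1 := by
    intro i h3 h
    exact (hMk i h3).1 (hinj i h3 (hPm i h3) (hQm i h3) h)
  have hne : ∀ l ∈ E, e₁ l ≠ e₂ l := by
    rintro (p | i) hl
    · exact ((hEl p).1 hl).2.2.1.ne
    · exact hPQ1 i (hEr i hl)
  -- facts on link ends
  have hφ : ∀ l ∈ E, ∀ u, (e₁ l = u ∨ e₂ l = u) →
      u ∈ S ∧ G.Adj u (φ u l) ∧ φ u l ∉ R ∧ φ u l ≠ r u := by
    rintro (p | i) hl u hu
    · obtain ⟨h1, h2, h3, h4⟩ := (hEl p).1 hl
      by_cases hp : p.1 = u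
      · have e : φ u (Sum.inl p) = p.2 := by simp only [φ, Sum.elim_inl, if_pos hp]
        rw [e]
        subst hp
        exact ⟨h1, h3, hSR _ h2, fun h => (hr _ h1).1 (h ▸ h2)⟩
      · have e : φ u (Sum.inl p) = p.1 := by simp only [φ, Sum.elim_inl, if_neg hp]
        rw [e]
        have hu' : p.2 = u := hu.resolve_left hp
        subst hu'
        exact ⟨h2, h3.symm, hSR _ h1, fun h => (hr _ h2).1 (h ▸ h1)⟩
    · have h3 := hEr i hl
      have hP := hPm i h3
      have hQ := hQm i h3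
      by_cases hp : (P i).1 = u
      · have e : φ u (Sum.inr i) = (P i).2 := by simp only [φ, Sum.elim_inr, if_pos hp]
        rw [e]
        subst hp
        refine ⟨hP.1, hP.2.2.2.2, hP.2.2.1, fun h => ?_⟩
        have h6 := (hMk i h3).2.2.2.2 _ hP.1 (by rw [← h]; exact hP.2.2.2.1)
        apply (hMk i h3).2.1
        rw [h6, ← h]
      · have e : φ u (Sum.inr i) = (Q i).2 := by simp only [φ, Sum.elim_inr, if_neg hp]
        rw [e]
        have hu' : (Q i).1 = u := hu.resolve_left hp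
        subst hu'
        refine ⟨hQ.1, hQ.2.2.2.2, hQ.2.2.1, fun h => ?_⟩
        have h6 := (hMk i h3).2.2.2.2 _ hQ.1 (by rw [← h]; exact hQ.2.2.2.1)
        apply (hMk i h3).2.2.1
        rw [h6, ← h]
  have hφinr : ∀ i, Sum.inr i ∈ E → ∀ u, φ u (Sum.inr i) ∉ S ∧ κ (φ u (Sum.inr i)) = i := by
    intro i hl u
    have h3 := hEr i hl
    by_cases hp : (P i).1 = u
    · have e : φ u (Sum.inr i) = (P i).2 := by simp only [φ, Sum.elim_inr, if_pos hp]
      rw [e]
      exact ⟨(hPm i h3).2.1, (hPm i h3).2.2.2.1⟩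
    · have e : φ u (Sum.inr i) = (Q i).2 := by simp only [φ, Sum.elim_inr, if_neg hp]
      rw [e]
      exact ⟨(hQm i h3).2.1, (hQm i h3).2.2.2.1⟩
  have hφinl : ∀ p, Sum.inl p ∈ E → ∀ u, φ u (Sum.inl p) ∈ S := by
    intro p hl u
    by_cases hp : p.1 = u
    · have e : φ u (Sum.inl p) = p.2 := by simp only [φ, Sum.elim_inl, if_pos hp]
      rw [e]; exact ((hEl p).1 hl).2.1
    · have e : φ u (Sum.inl p) = p.1 := by simp only [φ, Sum.elim_inl, if_neg hp]
      rw [e]; exact ((hEl p).1 hl).1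
  have hφinj : ∀ u, ∀ l ∈ E, (e₁ l = u ∨ e₂ l = u) → ∀ l' ∈ E, (e₁ l' = u ∨ e₂ l' = u) →
      φ u l = φ u l' → l = l' := by
    rintro u (p | i) hl hu (p' | i') hl' hu' h
    · obtain ⟨h1, h2, h3, h4⟩ := (hEl p).1 hl
      obtain ⟨h1', h2', h3', h4'⟩ := (hEl p').1 hl'
      congr 1
      simp only [φ, Sum.elim_inl] at h
      by_cases hp : p.1 = u <;> by_cases hp' : p'.1 = u
      · rw [if_pos hp, if_pos hp'] at h
        exact Prod.ext (hp.trans hp'.symm) h
      · rw [if_pos hp, if_neg hp'] at h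
        have hu2 : p'.2 = u := hu'.resolve_left hp'
        rw [hp, h] at h4
        rw [hu2] at h4'
        exact absurd (h4.trans h4') (lt_irrefl _)
      · rw [if_neg hp, if_pos hp'] at h
        have hu2 : p.2 = u := hu.resolve_left hp
        rw [hu2, h] at h4
        rw [hp'] at h4'
        exact absurd (h4.trans h4') (lt_irrefl _)
      · rw [if_neg hp, if_neg hp'] at h
        have hu2 : p.2 = u := hu.resolve_left hp
        have hu2' : p'.2 = u := hu'.resolve_left hp'
        exact Prod.ext h (hu2.trans hu2'.symm)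
    · exfalso
      have h1 := hφinl p hl u
      rw [h] at h1
      exact (hφinr i' hl' u).1 h1
    · exfalso
      have h1 := hφinl p' hl' u
      rw [← h] at h1
      exact (hφinr i hl u).1 h1
    · congr 1
      rw [← (hφinr i hl u).2, h, (hφinr i' hl' u).2]
  let c : V → ℕ := fun u => #{w : V | u ∈ S ∧ G.Adj u w ∧ w ∈ R}
  have hdeg : ∀ u, #{l ∈ E | e₁ l = u ∨ e₂ l = u} + c u ≤ 4 := by
    intro u
    by_cases hu : u ∈ S
    · have h1 : #{l ∈ E | e₁ l = u ∨ e₂ l = u} ≤ #{w : V | G.Adj u w ∧ w ∉ R ∧ w ≠ r u} := by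
        refine Finset.card_le_card_of_injOn (φ u) ?_ ?_
        · intro l hl
          have hl' : l ∈ E ∧ (e₁ l = u ∨ e₂ l = u) := by simpa using hl
          have := hφ l hl'.1 u hl'.2
          simp only [Finset.coe_filter, Finset.mem_univ, true_and, Set.mem_setOf_eq]
          exact this.2
        · intro l hl l' hl' h
          have h1 : l ∈ E ∧ (e₁ l = u ∨ e₂ l = u) := by simpa using hl
          have h2 : l' ∈ E ∧ (e₁ l' = u ∨ e₂ l' = u) := by simpa using hl'
          exact hφinj u l h1.1 h1.2 l' h2.1 h2.2 h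
      have h2 : #{w : V | G.Adj u w} = 5 := by
        have : ((univ.filter (fun w => G.Adj u w) : Finset V) : Set V) = G.neighborSet u := by
          ext w; simp
        rw [← h5 u, ← this, Set.ncard_coe_finset]
      have h3 : #{w : V | G.Adj u w ∧ w ∉ R ∧ w ≠ r u} + c u + 1 ≤ #{w : V | G.Adj u w} := by
        have hr' := hr u hu
        have hd1 : Disjoint (univ.filter (fun w : V => G.Adj u w ∧ w ∉ R ∧ w ≠ r u))
            (univ.filter (fun w : V => u ∈ S ∧ G.Adj u w ∧ w ∈ R)) := by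
          rw [Finset.disjoint_left]
          intro w hw hw'
          simp only [Finset.mem_filter] at hw hw'
          exact hw.2.2.1 hw'.2.2.2
        have hnot : r u ∉ (univ.filter (fun w : V => G.Adj u w ∧ w ∉ R ∧ w ≠ r u)) ∪
            (univ.filter (fun w : V => u ∈ S ∧ G.Adj u w ∧ w ∈ R)) := by
          simp only [Finset.mem_union, Finset.mem_filter, Finset.mem_univ, true_and, not_or]
          exact ⟨fun h => h.2.2 rfl, fun h => hr'.2.1 h.2.2⟩
        have h6 : #(insert (r u) ((univ.filter (fun w : V => G.Adj u w ∧ w ∉ R ∧ w ≠ r u)) ∪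
            (univ.filter (fun w : V => u ∈ S ∧ G.Adj u w ∧ w ∈ R)))) ≤ #{w : V | G.Adj u w} := by
          refine Finset.card_le_card ?_
          intro w hw
          simp only [Finset.mem_insert, Finset.mem_union, Finset.mem_filter, Finset.mem_univ,
            true_and] at hw ⊢
          rcases hw with rfl | hw | hw
          · exact hr'.2.2.1
          · exact hw.1
          · exact hw.2.1
        rw [Finset.card_insert_of_notMem hnot, Finset.card_union_of_disjoint hd1] at h6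
        exact h6
      omega
    · have h1 : #{l ∈ E | e₁ l = u ∨ e₂ l = u} = 0 := by
        rw [Finset.card_eq_zero, Finset.filter_eq_empty_iff]
        intro l hl h
        exact hu (hφ l hl u h).1
      have h2 : c u = 0 := by
        simp only [c]
        rw [Finset.card_eq_zero, Finset.filter_eq_empty_iff]
        intro w _ h
        exact hu h.1
      omega
  obtain ⟨χ, hb2, hcX⟩ := exists_local E e₁ e₂ hne σ c hdeg
  set E' := E.filter (fun l => Bad e₁ e₂ σ χ l) with hE'
  have hE'm : ∀ l, l ∈ E' ↔ l ∈ E ∧ Bad e₁ e₂ σ χ l := fun l => Finset.mem_filter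
  obtain ⟨t, ht1, ht2⟩ := exists_assign E' e₁ e₂ (fun l hl => hne l ((hE'm l).1 hl).1) (by
    intro u
    refine le_trans (le_of_eq ?_) (hb2 u)
    congr 1
    ext l
    simp only [Finset.mem_filter, hE'm]
    tauto)
  have hmex : ∀ u, ∃ w, u ∈ S →
      (((χ u = true ∧ c u = 1) ∧ w ∈ R ∧ G.Adj u w) ∨
      (¬ (χ u = true ∧ c u = 1) ∧ ∃ l ∈ E', t l = u ∧ w = φ u l) ∨
      (¬ (χ u = true ∧ c u = 1) ∧ (∀ l ∈ E', t l ≠ u) ∧ w = r u)) := by
    intro u
    by_cases hu : u ∈ S
    · by_cases hA : χ u = true ∧ c u = 1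
      · have : 0 < c u := by omega
        simp only [c] at this
        rw [Finset.card_pos] at this
        obtain ⟨w, hw⟩ := this
        simp only [Finset.mem_filter, Finset.mem_univ, true_and] at hw
        exact ⟨w, fun _ => Or.inl ⟨hA, hw.2.2, hw.2.1⟩⟩
      · by_cases hl : ∃ l ∈ E', t l = u
        · obtain ⟨l, hl, htl⟩ := hl
          exact ⟨φ u l, fun _ => Or.inr (Or.inl ⟨hA, l, hl, htl, rfl⟩)⟩
        · push Not at hl
          exact ⟨r u, fun _ => Or.inr (Or.inr ⟨hA, hl, rfl⟩)⟩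
    · exact ⟨u, fun h => absurd h hu⟩
  choose m hmspec using hmex
  have htend : ∀ l ∈ E', ∀ u, t l = u → (e₁ l = u ∨ e₂ l = u) := by
    intro l hl u h
    rcases ht1 l hl with h' | h'
    · exact Or.inl (h'.symm.trans h)
    · exact Or.inr (h'.symm.trans h)
  have hmadj : ∀ u ∈ S, G.Adj u (m u) := by
    intro u hu
    rcases hmspec u hu with h | ⟨_, l, hl, htl, h⟩ | ⟨_, _, h⟩
    · exact h.2.2
    · rw [h]; exact (hφ l ((hE'm l).1 hl).1 u (htend l hl u htl)).2.1
    · rw [h]; exact (hr u hu).2.2.1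
  have F3 : ∀ u, ∀ l ∈ E, (e₁ l = u ∨ e₂ l = u) → (m u = φ u l ↔ (l ∈ E' ∧ t l = u)) := by
    intro u l hl hend
    have hfl := hφ l hl u hend
    have hu := hfl.1
    constructor
    · intro h
      rcases hmspec u hu with h' | ⟨_, l', hl', htl', h'⟩ | ⟨_, _, h'⟩
      · rw [h] at h'
        exact absurd h'.2.1 hfl.2.2.1
      · have : l = l' := hφinj u l hl hend l' ((hE'm l').1 hl').1 (htend l' hl' u htl')
          (h.symm.trans h')
        rw [this]; exact ⟨hl', htl'⟩
      · exact absurd (h.symm.trans h') hfl.2.2.2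
    · rintro ⟨hl', htl⟩
      rcases hmspec u hu with h' | ⟨_, l', hl'', htl', h'⟩ | ⟨_, hno, h'⟩
      · exfalso
        have h0 := (hcX u h'.1.1).2 h'.1.2
        rw [Finset.card_eq_zero, Finset.filter_eq_empty_iff] at h0
        exact h0 hl ⟨hend, ((hE'm l).1 hl').2⟩
      · have : l' = l := ht2 l' hl'' l hl' (htl'.trans htl.symm)
        rw [h', this]
      · exact absurd htl (hno l hl')
  refine extend_picks G h5 S R hSR κ hRD hκ hRM hPM χ m hmadj ?_ ?_ ?_
  · -- edges inside `S`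
    have main : ∀ u ∈ S, ∀ w ∈ S, G.Adj u w → f u < f w →
        ((χ u = true ↔ m u = w) ↔ (χ w = true ↔ m w = u)) := by
      intro u hu w hw huw hlt
      have hl : (Sum.inl (u, w) : (V × V) ⊕ ι) ∈ E := (hEl (u, w)).2 ⟨hu, hw, huw, hlt⟩
      have f1 := F3 u _ hl (Or.inl rfl)
      have f2 := F3 w _ hl (Or.inr rfl)
      have e1 : φ u (Sum.inl (u, w)) = w := by simp [φ]
      have e2 : φ w (Sum.inl (u, w)) = u := by
        simp only [φ, Sum.elim_inl, if_neg huw.ne]
      rw [e1] at f1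
      rw [e2] at f2
      have hbad : (Sum.inl (u, w) : (V × V) ⊕ ι) ∈ E' ↔ χ u ≠ χ w := by
        rw [hE'm]
        simp only [hl, true_and, Bad, e₁, e₂, σ, Sum.elim_inl]
        simp
      by_cases hE : (Sum.inl (u, w) : (V × V) ⊕ ι) ∈ E'
      · have hχ := hbad.1 hE
        have ht := ht1 _ hE
        simp only [hE, true_and] at f1 f2
        rw [f1, f2]
        have huw' : u ≠ w := huw.ne
        refine logic1 hχ ?_
        rcases ht with ht | ht
        · have ht' : t (Sum.inl (u, w)) = u := ht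
          rw [ht']
          exact Or.inl ⟨rfl, huw'⟩
        · have ht' : t (Sum.inl (u, w)) = w := ht
          rw [ht']
          exact Or.inr ⟨rfl, huw'.symm⟩
      · have hχ : χ u = χ w := by
          by_contra h
          exact hE (hbad.2 h)
        simp only [hE, false_and] at f1 f2
        rw [f1, f2, hχ]
    intro u hu w hw huw
    rcases lt_or_ge (f u) (f w) with h | h
    · exact main u hu w hw huw h
    · have hlt : f w < f u := lt_of_le_of_ne h (fun h' => huw.ne (f.injective h').symm)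
      exact (main w hw u hu huw.symm hlt).symm
  · -- edges between `S` and `R`
    intro u hu v hv huv
    have hcv : v ∈ univ.filter (fun w : V => u ∈ S ∧ G.Adj u w ∧ w ∈ R) := by
      simp only [Finset.mem_filter, Finset.mem_univ, true_and]
      exact ⟨hu, huv, hv⟩
    have hcpos : 0 < c u := Finset.card_pos.2 ⟨v, hcv⟩
    constructor
    · intro hχ
      have h1 : c u = 1 := le_antisymm (hcX u hχ).1 hcpos
      rcases hmspec u hu with h' | ⟨h, _⟩ | ⟨h, _⟩
      · have h2 : m u ∈ univ.filter (fun w : V => u ∈ S ∧ G.Adj u w ∧ w ∈ R) := by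
          simp only [Finset.mem_filter, Finset.mem_univ, true_and]
          exact ⟨hu, h'.2.2, h'.2.1⟩
        exact Finset.card_le_one.1 (le_of_eq h1) _ h2 _ hcv
      · exact absurd ⟨hχ, h1⟩ h
      · exact absurd ⟨hχ, h1⟩ h
    · intro hmv
      rcases hmspec u hu with h' | ⟨_, l', hl', htl', h'⟩ | ⟨_, _, h'⟩
      · exact h'.1.1
      · exfalso
        have := (hφ l' ((hE'm l').1 hl').1 u (htend l' hl' u htl')).2.2.1
        rw [← h', hmv] at this
        exact this hv
      · exfalso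
        have := (hr u hu).2.1
        rw [← h', hmv] at this
        exact this hv
  · -- the classes
    intro x hxS hxR
    rcases hB x hxS hxR with h1 | ⟨h3, -⟩
    · rw [Set.ncard_eq_one] at h1
      obtain ⟨p₀, hp₀⟩ := h1
      refine ⟨p₀, by rw [hp₀]; rfl, decide (χ p₀.1 = true ↔ m p₀.1 = p₀.2), ?_⟩
      intro p hp
      rw [hp₀] at hp
      have hp' : p = p₀ := hp
      rw [hp', decide_eq_true_iff]
      simp
    · obtain ⟨n1, n2, n3, hset, -⟩ := hMk (κ x) h3
      have hPQ := hPQ1 (κ x) h3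
      have hl : (Sum.inr (κ x) : (V × V) ⊕ ι) ∈ E := by
        simp only [E, Finset.inr_mem_disjSum, Finset.mem_filter, Finset.mem_image,
          Finset.mem_univ, true_and]
        exact ⟨⟨x, rfl⟩, h3⟩
      have f1 := F3 (P (κ x)).1 _ hl (Or.inl rfl)
      have f2 := F3 (Q (κ x)).1 _ hl (Or.inr rfl)
      have e1 : φ (P (κ x)).1 (Sum.inr (κ x)) = (P (κ x)).2 := by simp [φ]
      have e2 : φ (Q (κ x)).1 (Sum.inr (κ x)) = (Q (κ x)).2 := by
        simp only [φ, Sum.elim_inr, if_neg hPQ]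
      rw [e1] at f1
      rw [e2] at f2
      have hbad : (Sum.inr (κ x) : (V × V) ⊕ ι) ∈ E' ↔ χ (P (κ x)).1 = χ (Q (κ x)).1 := by
        rw [hE'm]
        simp only [hl, true_and, Bad, e₁, e₂, σ, Sum.elim_inr]
        simp
      have hdiff : ¬ ((χ (P (κ x)).1 = true ↔ m (P (κ x)).1 = (P (κ x)).2) ↔
          (χ (Q (κ x)).1 = true ↔ m (Q (κ x)).1 = (Q (κ x)).2)) := by
        by_cases hE : (Sum.inr (κ x) : (V × V) ⊕ ι) ∈ E'
        · have hχ := hbad.1 hE
          have ht := ht1 _ hE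
          simp only [hE, true_and] at f1 f2
          rw [f1, f2]
          refine logic2 hχ ?_
          rcases ht with ht | ht
          · have ht' : t (Sum.inr (κ x)) = (P (κ x)).1 := ht
            rw [ht']
            exact Or.inl ⟨rfl, hPQ⟩
          · have ht' : t (Sum.inr (κ x)) = (Q (κ x)).1 := ht
            rw [ht']
            exact Or.inr ⟨rfl, hPQ.symm⟩
        · have hχ : χ (P (κ x)).1 ≠ χ (Q (κ x)).1 := fun h => hE (hbad.2 h)
          simp only [hE, false_and] at f1 f2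
          rw [f1, f2]
          exact logic3 hχ
      rw [hset]
      exact class_logic (fun p : V × V => (χ p.1 = true ↔ m p.1 = p.2)) _ _ _ n1 n2 n3 hdiff

end Pool.Agent.H567R3.OF
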