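import Pool.Agent.H567R3.OF.Base

namespace Pool.Agent.H567R3.OF

open SimpleGraph

variable {V ι : Type} {C : SimpleGraph ι} {G : SimpleGraph V} {a b : V}

/-- the subgraph of `G` induced by `F` on a copy, the edge `ab` taken iff `c` -/
def Ft (F : SimpleGraph (W ι V)) (a b : V) (hab : a ≠ b) (p : ι × Fin 3) (t : Fin 2) (c : Prop) :
    SimpleGraph V where
  Adj u v := F.Adj (cc p t u) (cc p t v) ∨ (((u = a ∧ v = b) ∨ (u = b ∧ v = a)) ∧ c)
  symm := ⟨by
    rintro u v (h | ⟨h | h, hc⟩)
    · exact Or.inl h.symm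
    · exact Or.inr ⟨Or.inr ⟨h.2, h.1⟩, hc⟩
    · exact Or.inr ⟨Or.inl ⟨h.2, h.1⟩, hc⟩⟩
  loopless := ⟨by
    rintro u (h | ⟨h | h, hc⟩)
    · exact F.loopless.irrefl _ h
    · exact hab (h.1.symm.trans h.2)
    · exact hab (h.2.symm.trans h.1)⟩

/-- If all vertices of a copy are good then exactly one of its two edges to the root is used. -/
lemma copy_twist (hG : G.Adj a b) (hno : ¬ ∃ H ≤ G, ∀ v, Good H v)
    (F : SimpleGraph (W ι V)) (hF : F ≤ HG C G a b) (p : ι × Fin 3) (t : Fin 2)
    (hgood : ∀ v, Good F (cc p t v)) :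
    ¬ (F.Adj (ww p) (cc p t a) ↔ F.Adj (ww p) (cc p t b)) := by
  intro hiff
  apply hno
  refine ⟨Ft F a b hG.ne p t (F.Adj (ww p) (cc p t a)), ?_, ?_⟩
  · rintro u v (h | ⟨h | h, hc⟩)
    · have h' : (HG C G a b).Adj (cc p t u) (cc p t v) := hF h
      exact h'.2.2.2.1
    · rw [h.1, h.2]; exact hG
    · rw [h.1, h.2]; exact hG.symm
  · intro v
    have key : F.neighborSet (cc p t v) =
        gm a b p t v '' ((Ft F a b hG.ne p t (F.Adj (ww p) (cc p t a))).neighborSet v) := by
      ext x
      simp only [mem_neighborSet, Set.mem_image]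
      constructor
      · intro h
        have h' : (HG C G a b).Adj (cc p t v) x := hF h
        have h'' : x ∈ gm a b p t v '' (G.neighborSet v) := by
          rw [← nbr_cc (C := C) hG]; exact h'
        obtain ⟨u, hu, rfl⟩ := h''
        refine ⟨u, ?_, rfl⟩
        unfold gm at h
        split_ifs at h with h1
        · refine Or.inr ⟨h1, ?_⟩
          rcases h1 with h1 | h1
          · rw [h1.1] at h; exact h.symm
          · rw [h1.1] at h; exact hiff.2 h.symm
        · exact Or.inl h
      · rintro ⟨u, hu, rfl⟩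
        unfold gm
        split_ifs with h1
        · have hc : F.Adj (ww p) (cc p t a) := by
            rcases hu with hu | hu
            · exfalso
              have h' : (HG C G a b).Adj (cc p t v) (cc p t u) := hF hu
              rcases h1 with h1 | h1
              · exact h'.2.2.2.2.1 h1
              · exact h'.2.2.2.2.2 h1
            · exact hu.2
          rcases h1 with h1 | h1
          · rw [h1.1]; exact hc.symm
          · rw [h1.1]; exact (hiff.1 hc).symm
        · rcases hu with hu | hu
          · exact hu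
          · exact absurd hu.1 h1
    have hg := hgood v
    unfold Good at hg ⊢
    rwa [key, Set.ncard_image_of_injective _ (gm_inj hG.ne p t v)] at hg

/-- Each gadget contains a vertex whose degree is neither `1` nor `4`. -/
lemma gadget_bad (hG : G.Adj a b) (hno : ¬ ∃ H ≤ G, ∀ v, Good H v)
    (F : SimpleGraph (W ι V)) (hF : F ≤ HG C G a b) (p : ι × Fin 3) :
    ¬ Good F (ww p) ∨ ∃ t v, ¬ Good F (cc p t v) := by
  by_contra hcon
  push Not at hcon
  obtain ⟨hw, hc⟩ := hcon
  have hx : ∀ t : Fin 2, ∃ x : V, F.Adj (ww p) (cc p t x) ∧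
      ∀ y, F.Adj (ww p) (cc p t y) → y = x := by
    intro t
    have h1 := copy_twist hG hno F hF p t (hc t)
    have h2 : ∀ y, F.Adj (ww p) (cc p t y) → y = a ∨ y = b := by
      intro y hy
      have h' : (HG C G a b).Adj (ww p) (cc p t y) := hF hy
      exact h'.2.2
    by_cases ha : F.Adj (ww p) (cc p t a)
    · refine ⟨a, ha, fun y hy => ?_⟩
      rcases h2 y hy with h | h
      · exact h
      · exfalso
        rw [h] at hy
        exact h1 ⟨fun _ => hy, fun _ => ha⟩
    · by_cases hb : F.Adj (ww p) (cc p t b)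
      · refine ⟨b, hb, fun y hy => ?_⟩
        rcases h2 y hy with h | h
        · rw [h] at hy; exact absurd hy ha
        · exact h
      · exact absurd ⟨fun h => absurd h ha, fun h => absurd h hb⟩ h1
  obtain ⟨x0, h0, h0'⟩ := hx 0
  obtain ⟨x1, h1, h1'⟩ := hx 1
  have hsub : F.neighborSet (ww p) ⊆ {zz p.1, cc p 0 x0, cc p 1 x1} := by
    intro x hx
    have h' : (HG C G a b).Adj (ww p) x := hF hx
    rcases x with i | p' | ⟨q1, q2, q3, q4⟩
    · left
      have : p.1 = i := by
        have h'' : i = p.1 := h'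
        exact h''.symm
      rw [← this]
    · exact absurd h' id
    · have e1 : p.1 = q1 := h'.1
      have e2 : p.2 = q2 := h'.2.1
      subst e1 e2
      have hq : q3 = 0 ∨ q3 = 1 := by omega
      rcases hq with rfl | rfl
      · right; left
        rw [show q4 = x0 from h0' q4 hx]
      · right; right
        rw [show q4 = x1 from h1' q4 hx]
        rfl
  have hle : (F.neighborSet (ww p)).ncard ≤ 3 := by
    refine (Set.ncard_le_ncard hsub (Set.toFinite _)).trans ?_
    refine (Set.ncard_insert_le _ _).trans ?_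
    have h2 : ({cc p 0 x0, cc p 1 x1} : Set (W ι V)).ncard ≤ 2 := by
      refine (Set.ncard_insert_le _ _).trans ?_
      rw [Set.ncard_singleton]
    omega
  have hge : 2 ≤ (F.neighborSet (ww p)).ncard := by
    have hs : ({cc p 0 x0, cc p 1 x1} : Set (W ι V)) ⊆ F.neighborSet (ww p) := by
      intro x hx
      rcases hx with rfl | hx
      · exact h0
      · rw [Set.mem_singleton_iff] at hx
        subst hx
        exact h1
    have hne : cc p 0 x0 ≠ cc p 1 x1 := by simp
    rw [← Set.ncard_pair hne]
    exact Set.ncard_le_ncard hs ((Set.toFinite _).subset hsub)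
  rcases hw with h | h
  · omega
  · omega

/-- projection of a gadget vertex to its gadget -/
def proj : W ι V → Option (ι × Fin 3)
  | .inl _ => none
  | .inr (.inl p) => some p
  | .inr (.inr q) => some (q.1, q.2.1)

/-- Every spanning subgraph of the big graph has at least `3 * |ι|` bad vertices. -/
lemma bad_count [Finite ι] [Finite V] (hG : G.Adj a b) (hno : ¬ ∃ H ≤ G, ∀ v, Good H v)
    (F : SimpleGraph (W ι V)) (hF : F ≤ HG C G a b) :
    3 * Nat.card ι ≤ {x | ¬ Good F x}.ncard := by
  have hex : ∀ p : ι × Fin 3, ∃ x : W ι V, ¬ Good F x ∧ proj x = some p := by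
    intro p
    rcases gadget_bad hG hno F hF p with h | ⟨t, v, h⟩
    · exact ⟨_, h, rfl⟩
    · exact ⟨_, h, rfl⟩
  choose f hf1 hf2 using hex
  have hinj : Function.Injective f := by
    intro p q h
    have := (hf2 p).symm.trans ((congrArg proj h).trans (hf2 q))
    exact Option.some.inj this
  have h1 : (Set.range f).ncard = Nat.card (ι × Fin 3) := by
    rw [← Set.image_univ, Set.ncard_image_of_injective _ hinj, Set.ncard_univ]
  have h2 : Nat.card (ι × Fin 3) = 3 * Nat.card ι := by
    rw [Nat.card_prod, Nat.card_fin, mul_comm]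
  rw [← h2, ← h1]
  exact Set.ncard_le_ncard (by rintro x ⟨p, rfl⟩; exact hf1 p) (Set.toFinite _)

end Pool.Agent.H567R3.OF
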