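import Pool.Agent.H567R3.OF.Color

namespace Pool.Agent.H567R3.OF

open SimpleGraph

/-- A colouring and a choice of one edge at each vertex give a `{1,4}`-factor. -/
lemma factor_of_picks {V : Type} [Finite V] (G : SimpleGraph V)
    (h5 : ∀ v, (G.neighborSet v).ncard = 5) (c : V → Bool) (m : V → V)
    (hm : ∀ v, G.Adj v (m v))
    (hc : ∀ v w, G.Adj v w → ((c v = true ↔ m v = w) ↔ (c w = true ↔ m w = v))) :
    ∃ H ≤ G, ∀ v, (H.neighborSet v).ncard = 1 ∨ (H.neighborSet v).ncard = 4 := by
  classical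
  let H : SimpleGraph V :=
    { Adj := fun v w => G.Adj v w ∧ ¬ (c v = true ↔ m v = w)
      symm := ⟨fun v w h => ⟨h.1.symm, fun h' => h.2 ((hc v w h.1).2 h')⟩⟩
      loopless := ⟨fun v h => G.loopless.irrefl _ h.1⟩ }
  refine ⟨H, fun v w h => h.1, fun v => ?_⟩
  cases hv : c v
  · left
    have : H.neighborSet v = {m v} := by
      ext w
      simp only [H, mem_neighborSet, hv, Set.mem_singleton_iff]
      constructor
      · rintro ⟨_, h⟩
        by_contra hne
        exact h ⟨fun h' => absurd h' (by simp), fun h' => absurd h'.symm hne⟩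
      · rintro rfl
        exact ⟨hm v, fun h => by simpa using h.2 rfl⟩
    rw [this, Set.ncard_singleton]
  · right
    have : H.neighborSet v = G.neighborSet v \ {m v} := by
      ext w
      simp only [H, mem_neighborSet, hv, Set.mem_sdiff, Set.mem_singleton_iff]
      constructor
      · rintro ⟨h1, h⟩
        exact ⟨h1, fun h' => h ⟨fun _ => h'.symm, fun _ => trivial⟩⟩
      · rintro ⟨h1, h⟩
        exact ⟨h1, fun h' => h (h'.1 trivial).symm⟩
    have hmem : m v ∈ G.neighborSet v := hm v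
    rw [this, Set.ncard_sdiff_singleton_of_mem hmem, h5]

/-- the partner function of a matching -/
lemma exists_partner {V : Type} {G : SimpleGraph V} (M : G.Subgraph) (hM : M.IsMatching) :
    ∃ g : V → V, (∀ v ∈ M.verts, G.Adj v (g v)) ∧ (∀ v ∈ M.verts, g v ∈ M.verts) ∧
      (∀ v ∈ M.verts, g (g v) = v) := by
  classical
  have h : ∀ v, ∃ w, v ∈ M.verts → (M.Adj v w ∧ ∀ y, M.Adj v y → y = w) := by
    intro v
    by_cases hv : v ∈ M.verts
    · obtain ⟨w, hw, hw'⟩ := hM hv
      exact ⟨w, fun _ => ⟨hw, hw'⟩⟩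
    · exact ⟨v, fun h => absurd h hv⟩
  choose g hg using h
  refine ⟨g, fun v hv => M.adj_sub (hg v hv).1, fun v hv => M.edge_vert (hg v hv).1.symm, ?_⟩
  intro v hv
  have h1 := (hg v hv).1
  exact ((hg (g v) (M.edge_vert h1.symm)).2 v h1.symm).symm

end Pool.Agent.H567R3.OF
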